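import Pool.Agent.H.MP_eea557_ag.B

namespace Pool.Agent.Results.MP_eea557_ag.Saito

open MvPolynomial Pool.Agent.H.MP_eea557_ag

theorem result {K : Type} [Field K] {l : ℕ} {ι : Type} [Fintype ι]
    (α : ι → MvPolynomial (Fin l) K) (h1 : ∀ H, (α H).IsHomogeneous 1 ∧ α H ≠ 0)
    (h2 : Pairwise fun H H' => ¬ Associated (α H) (α H'))
    (θ : Matrix (Fin (l + 1)) (Fin l) (MvPolynomial (Fin l) K)) (hθ : ∀ i, θ i ∈ DA α)
    (hh : ∀ i, ∃ d, ∀ j, (θ i j).IsHomogeneous d) (g : Fin (l + 1) → MvPolynomial (Fin l) K)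
    (hg : ∀ i : Fin (l + 1),
      (-1) ^ (i.1 + 1) * (θ.submatrix i.succAbove id).det = g i * ∏ H, α H) :
    (Submodule.span (MvPolynomial (Fin l) K) (Set.range θ) = DA α ∧
      (∀ i, θ i ∉ Submodule.span (MvPolynomial (Fin l) K) (θ '' {i}ᶜ)) ∧
      (∀ f : Fin (l + 1) → MvPolynomial (Fin l) K,
        ∑ i, f i • θ i = 0 ↔ ∃ c : MvPolynomial (Fin l) K, f = c • g) ∧
      g (Fin.last l) ≠ 0 ∧ (g (Fin.last l)).IsHomogeneous 1) ↔
    (g (Fin.last l) ≠ 0 ∧ (g (Fin.last l)).IsHomogeneous 1 ∧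
      (∀ i : Fin l, ∃ d, 0 < d ∧ (g i.castSucc).IsHomogeneous d) ∧
      ¬ ∃ h d, 0 < d ∧ h.IsHomogeneous d ∧
        ∀ i : Fin l, g i.castSucc ∈ Ideal.span {h, g (Fin.last l)}) := by
  classical
  constructor
  · rintro ⟨a, b, c, d, e⟩
    refine ⟨d, e, fun i => ?_, nodiv h1 hθ a c d e⟩
    by_cases z : g i.castSucc = 0
    · exact ⟨1, one_pos, z ▸ isHomogeneous_zero _ _ _⟩
    refine ⟨_, Nat.pos_of_ne_zero fun t => b _ (minimal h1 hg i.castSucc ?_), g_hom h1 hg hh _⟩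
    rw [totalDegree_eq_zero_iff_eq_C.1 t] at z ⊢
    exact (IsUnit.mk0 _ (C_ne_zero.1 z)).map C
  · rintro ⟨a, b, c, d⟩
    obtain ⟨j, hj⟩ : ∃ j : Fin l, ¬ g (Fin.last l) ∣ g j.castSucc := by
      by_contra z
      push Not at z
      exact d ⟨_, 1, one_pos, b, fun i => by simpa [Ideal.mem_span_singleton] using z i⟩
    refine ⟨le_antisymm (Submodule.span_le.2 (Set.range_subset_iff.2 hθ))
      (gen h1 h2 hg hθ a b (fun i => (c i).imp fun _ h => h.2) d), fun i hi => ?_,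
      fun f => ⟨syz h1 hg a b j hj f, ?_⟩, a, b⟩
    · rw [← Finset.coe_singleton, ← Finset.coe_compl,
        Submodule.mem_span_image_finset_iff_exists_fun'] at hi
      obtain ⟨z, hz⟩ := hi
      obtain ⟨y, hy⟩ := syz h1 hg a b j hj (Function.update z i (-1)) (by
        rw [← Finset.add_sum_erase _ _ (Finset.mem_univ i), Function.update_self, neg_one_smul,
          neg_add_eq_zero, ← hz, Finset.compl_singleton]
        exact Finset.sum_congr rfl fun k hk => by
          rw [Function.update_of_ne (Finset.ne_of_mem_erase hk)])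
      have e : constantCoeff (g i) = 0 := by
        refine Fin.lastCases (b.coeff_eq_zero (by simp)) (fun k => ?_) i
        obtain ⟨d, d0, hd⟩ := c k
        exact hd.coeff_eq_zero (by simpa using d0.ne)
      simpa [e] using congrArg constantCoeff (congrFun hy i)
    · rintro ⟨c, rfl⟩
      simp only [Pi.smul_apply, smul_assoc, ← Finset.smul_sum, rel h1 hg, smul_zero]

end Pool.Agent.Results.MP_eea557_ag.Saito
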